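import Pool.Agent.Helper1.TE.Goals3

/-!
# Project TE, packet LG1: the languages
-/

namespace Pool.Agent.Helper79.TE

open Pool.Agent.Helper1.TE

open Pool.Agent.Helper65.LinSpace (dig tab nrec ifz eq01 le01 lt01 capPow)

theorem form_iff (w : List Bool) (h b L : ℕ) :
    (∃ v : List Bool, v.length = L ∧
      w = List.replicate h true ++ false :: (List.replicate b true ++ false :: v) ∧
        v = w.drop (h + b + 2)) ↔
      (Pre w h b ∧ w[h + 1 + b]? = some false ∧ w.length = h + b + 2 + L) := by
  constructor
  · rintro ⟨v, hv, hw, -⟩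
    refine ⟨⟨?_, ?_, ?_⟩, ?_, ?_⟩
    · intro i hi
      rw [hw, List.getElem?_append_left (by rw [List.length_replicate]; exact hi),
        List.getElem?_replicate, if_pos hi]
    · rw [hw, List.getElem?_append_right (by rw [List.length_replicate]), List.length_replicate,
        Nat.sub_self, List.getElem?_cons_zero]
    · intro i hi
      rw [hw, List.getElem?_append_right (by rw [List.length_replicate]; omega),
        List.length_replicate, show h + 1 + i - h = i + 1 by omega, List.getElem?_cons_succ,
        List.getElem?_append_left (by rw [List.length_replicate]; exact hi),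
        List.getElem?_replicate, if_pos hi]
    · rw [hw, List.getElem?_append_right (by rw [List.length_replicate]; omega),
        List.length_replicate, show h + 1 + b - h = b + 1 by omega, List.getElem?_cons_succ,
        List.getElem?_append_right (by rw [List.length_replicate]), List.length_replicate,
        Nat.sub_self, List.getElem?_cons_zero]
    · rw [hw, List.length_append, List.length_cons, List.length_append, List.length_cons,
        List.length_replicate, List.length_replicate, hv]
      omega
  · rintro ⟨⟨h1, h2, h3⟩, h4, h5⟩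
    refine ⟨w.drop (h + b + 2), by rw [List.length_drop]; omega, ?_, rfl⟩
    apply List.ext_getElem?
    intro i
    rcases Nat.lt_trichotomy i h with hi | hi | hi
    · rw [List.getElem?_append_left (by rw [List.length_replicate]; exact hi),
        List.getElem?_replicate, if_pos hi, h1 i hi]
    · rw [hi, List.getElem?_append_right (by rw [List.length_replicate]), List.length_replicate,
        Nat.sub_self, List.getElem?_cons_zero, h2]
    · obtain ⟨j, rfl⟩ : ∃ j, i = h + 1 + j := ⟨i - (h + 1), by omega⟩
      rw [List.getElem?_append_right (by rw [List.length_replicate]; omega),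
        List.length_replicate, show h + 1 + j - h = j + 1 by omega, List.getElem?_cons_succ]
      rcases Nat.lt_trichotomy j b with hj | hj | hj
      · rw [List.getElem?_append_left (by rw [List.length_replicate]; exact hj),
          List.getElem?_replicate, if_pos hj, h3 j hj]
      · rw [hj, List.getElem?_append_right (by rw [List.length_replicate]),
          List.length_replicate, Nat.sub_self, List.getElem?_cons_zero, h4]
      · obtain ⟨l, rfl⟩ : ∃ l, j = b + 1 + l := ⟨j - (b + 1), by omega⟩
        rw [List.getElem?_append_right (by rw [List.length_replicate]; omega),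
          List.length_replicate, show b + 1 + l - b = l + 1 by omega, List.getElem?_cons_succ,
          List.getElem?_drop]
        congr 1
        omega

theorem mem_iff (ok : ℕ → ℕ → ℕ) (D : Set (ℕ × ℕ)) (hD : ∀ h b, (h, b) ∈ D ↔ ok h b ≠ 0)
    (w : List Bool) :
    w ∈ TreeEval D ↔ ∃ h b, Full ok w h b ∧ rootValue h b (w.drop (h + b + 2)) = 1 := by
  constructor
  · rintro ⟨h, b, hh, hb, hD', v, hv, hr, hw⟩
    have hdrop : v = w.drop (h + b + 2) := by
      rw [hw]
      have e1 : (List.replicate h true ++ false :: (List.replicate b true ++ false :: v)) =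
          (List.replicate h true ++ [false] ++ List.replicate b true ++ [false]) ++ v := by
        simp
      rw [e1, List.drop_left']
      simp
      omega
    obtain ⟨h1, h2, h3⟩ := (form_iff w h b (blocks h b * b)).1 ⟨v, hv, hw, hdrop⟩
    refine ⟨h, b, ⟨⟨h1, h2, hh, hb, (hD h b).1 hD'⟩, h3⟩, ?_⟩
    rw [← hdrop]
    exact hr
  · rintro ⟨h, b, ⟨⟨h1, h2, hh, hb, hok⟩, h3⟩, hr⟩
    obtain ⟨v, hv, hw, hdrop⟩ := (form_iff w h b (blocks h b * b)).2 ⟨h1, h2, h3⟩
    refine ⟨h, b, hh, hb, (hD h b).2 hok, v, hv, ?_, hw⟩
    rw [hdrop]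
    exact hr

theorem gLG1 : GoalLG1 := by
  intro hFU ok D hD
  have e1 : ∀ v : ℕ, eq01 v 1 ≠ 0 ↔ v = 1 := by
    intro v
    unfold Pool.Agent.Helper65.LinSpace.eq01
    by_cases hv : v = 1 <;> simp [hv]
  have e2 : ∀ v : ℕ, 1 - eq01 v 1 ≠ 0 ↔ v ≠ 1 := by
    intro v
    unfold Pool.Agent.Helper65.LinSpace.eq01
    by_cases hv : v = 1 <;> simp [hv]
  constructor
  · ext w
    rw [mem_iff ok D hD]
    constructor
    · rintro ⟨h, b, hf, hr⟩
      exact Or.inl ⟨h, b, hf, (e1 _).2 hr⟩
    · rintro (⟨h, b, hf, hr⟩ | ⟨h0, -⟩)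
      · exact ⟨h, b, hf, (e1 _).1 hr⟩
      · exact absurd rfl h0
  · ext w
    rw [Set.mem_compl_iff, mem_iff ok D hD]
    constructor
    · intro hn
      by_cases hF : ∃ h b, Full ok w h b
      · obtain ⟨h, b, hf⟩ := hF
        exact Or.inl ⟨h, b, hf, (e2 _).2 fun hr => hn ⟨h, b, hf, hr⟩⟩
      · exact Or.inr ⟨one_ne_zero, hF⟩
    · rintro (⟨h, b, hf, hr⟩ | ⟨-, hF⟩) ⟨h', b', hf', hr'⟩
      · obtain ⟨rfl, rfl⟩ := (hFU ok w h b h' b' hf').1 hf
        exact (e2 _).1 hr hr'
      · exact hF ⟨h', b', hf'⟩

end Pool.Agent.Helper79.TE
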