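import Pool.Agent.Helper1.TE.Goals

/-!
# Project TE, packet PB: the parameters
-/

namespace Pool.Agent.Helper79.TE

open Pool.Agent.Helper1.TE

open Pool.Agent.Helper65.LinSpace (dig tab nrec ifz eq01 le01 lt01 capPow)

theorem gPB : GoalPB := by
  intro h b hh hb
  have hs1 : 1 ≤ sP h b := by
    unfold sP
    exact le_min hb (Nat.succ_le_succ (Nat.zero_le _))
  have hsb : sP h b ≤ b := min_le_left _ _
  set s := sP h b with hs
  set m := mP h b with hm
  set R := RP h b with hR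
  have hEdef : EP h b = (m + 2) * (2 * s + Nat.log 2 (m + R) + 1) + 3 * h + 3 * b + 2 := rfl
  set E := EP h b with hE
  have hE1 : 3 * h + 3 * b + 2 ≤ E := by rw [hEdef]; omega
  have hsE : s ≤ E := by omega
  have hp : ∀ i j : ℕ, i ≤ j → 2 ^ i ≤ 2 ^ j := fun i j hij => Nat.pow_le_pow_right (by norm_num) hij
  have h10 : 2 ^ s ≤ 2 ^ E := hp _ _ hsE
  have hL : LP h b (2 ^ E) = m * (2 ^ s - 1) ^ 2 := by
    show m * (capPow 2 s (2 ^ E) - 1) ^ 2 = _
    have h1 : capPow 2 s (2 ^ E) = 2 ^ s := by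
      unfold Pool.Agent.Helper65.LinSpace.capPow
      exact min_eq_left (by omega)
    rw [h1]
  have hR1 : 1 ≤ R := by
    show 1 ≤ (b + 4 * s - 1) / (4 * s)
    rw [Nat.le_div_iff_mul_le (by omega)]
    omega
  have hP : PM h b (2 ^ E) = m * (2 ^ s - 1) ^ 2 + R := by
    show LP h b (2 ^ E) + R = _
    rw [hL]
  have h2s : 1 ≤ 2 ^ s := Nat.one_le_two_pow
  have hPle : PM h b (2 ^ E) ≤ 2 ^ (2 * s + Nat.log 2 (m + R) + 1) := by
    rw [hP]
    have e1 : (2 ^ s - 1) ^ 2 ≤ 2 ^ (2 * s) := by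
      rw [mul_comm 2 s, pow_mul]
      exact Nat.pow_le_pow_left (Nat.sub_le _ _) 2
    have e2 : m + R ≤ 2 ^ (Nat.log 2 (m + R) + 1) :=
      (Nat.lt_pow_succ_log_self (by norm_num) _).le
    have e3 : 1 ≤ 2 ^ (2 * s) := Nat.one_le_two_pow
    calc m * (2 ^ s - 1) ^ 2 + R ≤ m * 2 ^ (2 * s) + R * 2 ^ (2 * s) :=
          Nat.add_le_add (Nat.mul_le_mul_left _ e1) (Nat.le_mul_of_pos_right _ e3)
      _ = (m + R) * 2 ^ (2 * s) := by ring
      _ ≤ 2 ^ (Nat.log 2 (m + R) + 1) * 2 ^ (2 * s) := Nat.mul_le_mul_right _ e2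
      _ = 2 ^ (2 * s + Nat.log 2 (m + R) + 1) := by
          rw [← pow_add]
          congr 1
          omega
  refine ⟨hs1, hsb, hL, ?_, ?_, ?_, hp _ _ (by omega), hp _ _ (by omega), ?_, h10⟩
  · rw [hP]
    omega
  · calc PM h b (2 ^ E) ^ (m + 2) ≤ (2 ^ (2 * s + Nat.log 2 (m + R) + 1)) ^ (m + 2) :=
          Nat.pow_le_pow_left hPle _
      _ = 2 ^ ((m + 2) * (2 * s + Nat.log 2 (m + R) + 1)) := by
          rw [← pow_mul]
          congr 1
          ring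
      _ ≤ 2 ^ E := hp _ _ (by rw [hEdef]; omega)
  · calc 5 ^ h ≤ 8 ^ h := Nat.pow_le_pow_left (by norm_num) h
      _ = 2 ^ (3 * h) := by
          rw [pow_mul]
          norm_num
      _ ≤ 2 ^ E := hp _ _ (by omega)
  · calc 4 ^ b = 2 ^ (2 * b) := by
          rw [pow_mul]
          norm_num
      _ ≤ 2 ^ E := hp _ _ (by omega)

end Pool.Agent.Helper79.TE
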